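import Pool.Agent.P.MP_039ae7_nt.Main

namespace Pool.Agent.Results.MP_039ae7_nt.NotDetermined

open Pool.Agent.P.MP_039ae7_nt Filter Topology

/-- Two sequences satisfying (a), (b), (c) have different limiting frequencies `p(5/2)`. -/
theorem result : ∃ x y : ℕ → ℝ, InS x ∧ InS y ∧ ∃ p q : ℝ, p ≠ q ∧
    Tendsto (gapFreq x (5 / 2)) atTop (𝓝 p) ∧ Tendsto (gapFreq y (5 / 2)) atTop (𝓝 q) :=
  main

end Pool.Agent.Results.MP_039ae7_nt.NotDetermined
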